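import Mathlib

/-!
# The least number of 1-handles of a simply connected 4-manifold

Let `h X` be the least number of 1-handles in a handle decomposition of the closed simply connected
smooth 4-manifold `X`. Kirby's question, if `h X = 0` for all `X`, is equivalent to the additivity of
`h` under connected sum and to `h X ≤ h (X # S² × S²)` for all `X`, and also to the following two
weak properties together: if `h X ≠ 0` then `h` is unbounded on the sums of copies of `X # X̄`, and
`h X` is bounded by a function of `h (X # S² × S²)`.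
-/

set_option autoImplicit false

namespace Pool.Agent.Results.MP_f18604_gt.OneHandleNumber

/-- The monoid `Mfd` of the closed simply connected oriented smooth 4-manifolds up to orientation
preserving diffeomorphism, under connected sum (`0` is the 4-sphere), and the classical facts on
handle decompositions and stable diffeomorphism which are used. -/
structure FourManifolds (Mfd : Type) [AddCommMonoid Mfd] where
  /-- `X` has a handle decomposition with exactly `n` 1-handles -/
  Has : Mfd → ℕ → Prop
  exists_has : ∀ X, ∃ n, Has X n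
  has_add : ∀ X Y m n, Has X m → Has Y n → Has (X + Y) (m + n)
  has_zero : Has 0 0
  /-- reversal of the orientation -/
  bar : Mfd → Mfd
  has_bar : ∀ X n, Has X n → Has (bar X) n
  /-- `S² × S²` -/
  S : Mfd
  /-- the complex projective plane -/
  CP : Mfd
  /-- the K3 surface -/
  K : Mfd
  has_S : Has S 0
  has_CP : Has CP 0
  /-- Harer, Kas, Kirby -/
  has_K : Has K 0
  /-- Wall: after enough stabilisations `X` is a sum of standard manifolds -/
  wall : ∀ X, ∃ k : ℕ, X + k • S ∈ AddSubmonoid.closure {S, CP, bar CP, K, bar K}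
  /-- Wall: `X # X̄` is stably diffeomorphic to the sum of copies of `S² × S²`, or of copies of the
  sum of the two complex projective planes, which has the same intersection form -/
  wall_double : ∀ X, ∃ k z : ℕ, X + bar X + k • S = z • S + k • S ∨
    X + bar X + k • S = z • (CP + bar CP) + k • S

variable {Mfd : Type} [AddCommMonoid Mfd] (T : FourManifolds Mfd)

/-- The least number of 1-handles in a handle decomposition of `X`. -/
noncomputable def FourManifolds.h (X : Mfd) : ℕ := sInf {n | T.Has X n}

lemma has_h (X : Mfd) : T.Has X (T.h X) := Nat.sInf_mem (T.exists_has X)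

lemma h_le {X : Mfd} {n : ℕ} (hn : T.Has X n) : T.h X ≤ n := Nat.sInf_le hn

lemma h_eq_zero {X : Mfd} : T.h X = 0 ↔ T.Has X 0 := by
  constructor
  · intro h
    have := has_h T X
    rwa [h] at this
  · intro h
    exact Nat.le_zero.1 (h_le T h)

lemma has_nsmul {X : Mfd} (hX : T.Has X 0) (n : ℕ) : T.Has (n • X) 0 := by
  induction n with
  | zero => simpa using T.has_zero
  | succ n ih =>
    rw [succ_nsmul]
    exact T.has_add _ _ 0 0 ih hX

lemma has_standard {X : Mfd} (hX : X ∈ AddSubmonoid.closure {T.S, T.CP, T.bar T.CP, T.K, T.bar T.K}) :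
    T.Has X 0 := by
  induction hX using AddSubmonoid.closure_induction with
  | mem x hx =>
    simp only [Set.mem_insert_iff, Set.mem_singleton_iff] at hx
    rcases hx with rfl | rfl | rfl | rfl | rfl
    · exact T.has_S
    · exact T.has_CP
    · exact T.has_bar _ _ T.has_CP
    · exact T.has_K
    · exact T.has_bar _ _ T.has_K
  | zero => exact T.has_zero
  | add x y _ _ hx hy => exact T.has_add _ _ 0 0 hx hy

/-- All sums of copies of `X # X̄` lose their 1-handles after the same number of stabilisations. -/
lemma uniform (X : Mfd) : ∃ k : ℕ, ∀ n : ℕ, T.Has (n • (X + T.bar X) + k • T.S) 0 := by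
  obtain ⟨k, z, hz⟩ := T.wall_double X
  have key : ∀ N : Mfd, T.Has N 0 → X + T.bar X + k • T.S = z • N + k • T.S →
      ∀ n : ℕ, T.Has (n • (X + T.bar X) + k • T.S) 0 := by
    intro N hN he n
    have h1 : n • (X + T.bar X) + k • T.S = n • (z • N) + k • T.S := by
      induction n with
      | zero => simp
      | succ n ih =>
        rw [succ_nsmul, add_assoc, he, add_left_comm, ih, succ_nsmul]
        abel
    rw [h1]
    exact T.has_add _ _ 0 0 (has_nsmul T (has_nsmul T hN z) n) (has_nsmul T T.has_S k)
  rcases hz with hz | hz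
  · exact ⟨k, key _ T.has_S hz⟩
  · exact ⟨k, key _ (T.has_add _ _ 0 0 T.has_CP (T.has_bar _ _ T.has_CP)) hz⟩

lemma bounded (hb : ∀ c, ∃ B, ∀ X, T.h (X + T.S) ≤ c → T.h X ≤ B) (k : ℕ) :
    ∀ c, ∃ B, ∀ X, T.h (X + k • T.S) ≤ c → T.h X ≤ B := by
  induction k with
  | zero => exact fun c => ⟨c, fun X hX => by simpa using hX⟩
  | succ k ih =>
    intro c
    obtain ⟨B, hB⟩ := ih c
    obtain ⟨B', hB'⟩ := hb B
    refine ⟨B', fun X hX => hB' X (hB _ ?_)⟩
    rw [succ_nsmul'] at hX
    rwa [add_assoc]

/-- Let `h X` be the least number of 1-handles in a handle decomposition of `X`. The following are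
equivalent. (1) Every closed simply connected smooth 4-manifold has a handle decomposition without
1-handles. (2) `h` is additive under connected sum. (3) `h X ≤ h (X # S² × S²)` for all `X`. (4) If
`X # S² × S²` has a handle decomposition without 1-handles then so has `X`. (5) If `X` has no handle
decomposition without 1-handles then the numbers `h (#ⁿ (X # X̄))`, `n = 1, 2, …`, are unbounded; and
for every `c` the numbers `h X` are bounded on the class of all `X` such that
`h (X # S² × S²) ≤ c`. -/
theorem result : List.TFAE [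
    ∀ X, T.Has X 0,
    ∀ X Y, T.h (X + Y) = T.h X + T.h Y,
    ∀ X, T.h X ≤ T.h (X + T.S),
    ∀ X, T.Has (X + T.S) 0 → T.Has X 0,
    (∀ X, ¬ T.Has X 0 → ∀ B, ∃ n : ℕ, B < T.h (n • (X + T.bar X))) ∧
      ∀ c, ∃ B, ∀ X, T.h (X + T.S) ≤ c → T.h X ≤ B] := by
  tfae_have 1 → 2 := by
    intro h X Y
    rw [(h_eq_zero T).2 (h _), (h_eq_zero T).2 (h X), (h_eq_zero T).2 (h Y)]
  tfae_have 2 → 3 := by
    intro h X
    rw [h X T.S]
    exact Nat.le_add_right _ _
  tfae_have 3 → 4 := by
    intro h X hX
    have h1 := h X
    rw [(h_eq_zero T).2 hX] at h1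
    exact (h_eq_zero T).1 (Nat.le_zero.1 h1)
  tfae_have 4 → 1 := by
    intro h X
    obtain ⟨k, hk⟩ := T.wall X
    have h1 : T.Has (X + k • T.S) 0 := has_standard T hk
    clear hk
    induction k with
    | zero => simpa using h1
    | succ k ih =>
      refine ih (h _ ?_)
      rwa [add_assoc, ← succ_nsmul]
  tfae_have 1 → 5 := by
    intro h
    exact ⟨fun X hX => absurd (h X) hX, fun c => ⟨0, fun X _ => ((h_eq_zero T).2 (h X)).le⟩⟩
  tfae_have 5 → 1 := by
    rintro ⟨h1, h2⟩ X
    by_contra hX
    obtain ⟨k, hk⟩ := uniform T X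
    obtain ⟨B, hB⟩ := bounded T h2 k 0
    obtain ⟨n, hn⟩ := h1 X hX B
    exact absurd (hB _ ((h_eq_zero T).2 (hk n)).le) (not_le.2 hn)
  tfae_finish

end Pool.Agent.Results.MP_f18604_gt.OneHandleNumber
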